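import Pool.Agent.Helper907.AA.Example

/-!
# An almost alternating diagram with the minimal number of crossings

The answer to the question is yes. The diagram `D` below has four components `A₁, A₂, B₁, B₂` and
13 crossings:

* `A₁ ∪ A₂` is a reduced alternating diagram of the Whitehead link (5 crossings, one of them a
  crossing of `A₁` with itself);
* each `Bⱼ` crosses each `Aₖ` exactly twice, once over and once under, with linking number `±1`;
* `B₁` and `B₂` do not cross.

Changing the crossing of `A₁` with itself (the piece `pos 1`) gives an alternating diagram, and `D`
itself is not alternating.

Lower bound: in any diagram of this link there are at least two crossings of `Aₖ` with `Bⱼ` for each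
of the four pairs (linking number `±1`), and at least five crossings of `A₁ ∪ A₂` with itself,
because the Whitehead link has crossing number 5. Hence `c(L) ≥ 4 * 2 + 5 = 13`. Everything is
proved in Lean, including the invariance of the linking numbers (counted separately for `A` over `B`
and `B` over `A`) and the lower bound for the Whitehead link: if it had a diagram with at most four
crossings, then a nonconstant Fox colouring of that diagram with values in `ℤ/3` could be written
down.
-/

set_option autoImplicit false
set_option maxRecDepth 100000

namespace Pool.Agent.Results.MP_7250c3_gt.MinimalAlmostAlternating

open Pool.Agent.Helper907.AA Pool.Agent.Helper907.AA.Piece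

/-- There is an almost alternating link diagram `D` whose number of crossings is the crossing number
of the link it presents (and this number is 13). -/
theorem result : ∃ D : Word, Closed D ∧ AlmostAlternating D ∧
    crossings D = crossingNumber D ∧ crossings D = 13 :=
  ⟨[birth 0, birth 1, birth 2, neg 1, neg 3, pos 0, pos 4, neg 1, neg 3, death 2, pos 1, birth 2,
      neg 1, neg 3, pos 0, pos 4, neg 1, neg 3, death 2, death 1, death 0],
    exD_closed, exD_almost, exD_crossings.trans exD_number.symm, exD_crossings⟩

end Pool.Agent.Results.MP_7250c3_gt.MinimalAlmostAlternating
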